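import Pool.Agent.Lib.MP_11d477_gt.HI.Zero
import Pool.Agent.Lib.MP_11d477_gt.HI.NeckMain

set_option autoImplicit false

namespace Pool.Agent.Results.MP_11d477_gt.DecomposableCase

/-- Covering dimension at most `n`: each finite open cover has an open shrinking of order at most
`n + 1`. -/
def DimLE (X : Type) [TopologicalSpace X] (n : ℕ) : Prop :=
  ∀ (k : ℕ) (U : Fin k → Set X), (∀ i, IsOpen (U i)) → (⋃ i, U i) = Set.univ →
    ∃ V : Fin k → Set X, (∀ i, IsOpen (V i)) ∧ (∀ i, V i ⊆ U i) ∧ (⋃ i, V i) = Set.univ ∧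
      ∀ x : X, Set.ncard {i : Fin k | x ∈ V i} ≤ n + 1

/-- Aposyndetic: each point has a continuum neighbourhood that misses any other given point. -/
def Aposyndetic (X : Type) [TopologicalSpace X] : Prop :=
  ∀ x y : X, x ≠ y → ∃ K : Set X, IsCompact K ∧ IsConnected K ∧ x ∈ interior K ∧ y ∉ K

/-- Indecomposable: the space is not the union of two proper subcontinua. -/
def Indecomposable (X : Type) [TopologicalSpace X] : Prop :=
  ∀ K L : Set X, IsCompact K → IsConnected K → IsCompact L → IsConnected L → K ∪ L = Set.univ →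
    K = Set.univ ∨ L = Set.univ

/-- A homogeneous decomposable metric continuum that is not aposyndetic has covering dimension
exactly one. -/
theorem result (X : Type) [MetricSpace X] [CompactSpace X] [ConnectedSpace X] [Nontrivial X]
    (hom : ∀ x y : X, ∃ h : X ≃ₜ X, h x = y) (hd : ¬ Indecomposable X) (ha : ¬ Aposyndetic X) :
    DimLE X 1 ∧ ¬ DimLE X 0 :=
  ⟨Lib.MP_11d477_gt.HI.dimOne_of_dec hom
      (fun h => ha fun x y hxy => (h x y hxy).imp fun _ hK => ⟨hK.1.1, hK.1.2, hK.2⟩)
      (fun h => hd fun K L a b c d e => h K L ⟨a, b⟩ ⟨c, d⟩ e),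
    Lib.MP_11d477_gt.HI.not_dim_zero X⟩

end Pool.Agent.Results.MP_11d477_gt.DecomposableCase
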