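import Pool.Agent.Lib.MP_11d477_gt.Ind.Main

set_option autoImplicit false

namespace Pool.Agent.Results.MP_11d477_gt.IndecompTwoDim

/-- Covering dimension at most `n`: each finite open cover has an open shrinking of order at most
`n + 1`. -/
def DimLE (X : Type) [TopologicalSpace X] (n : ℕ) : Prop :=
  ∀ (k : ℕ) (U : Fin k → Set X), (∀ i, IsOpen (U i)) → (⋃ i, U i) = Set.univ →
    ∃ V : Fin k → Set X, (∀ i, IsOpen (V i)) ∧ (∀ i, V i ⊆ U i) ∧ (⋃ i, V i) = Set.univ ∧
      ∀ x : X, Set.ncard {i : Fin k | x ∈ V i} ≤ n + 1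

/-- Indecomposable: the space is not the union of two proper subcontinua. -/
def Indecomposable (X : Type) [TopologicalSpace X] : Prop :=
  ∀ K L : Set X, IsCompact K → IsConnected K → IsCompact L → IsConnected L → K ∪ L = Set.univ →
    K = Set.univ ∨ L = Set.univ

/-- There is a homogeneous indecomposable metric continuum of covering dimension exactly two. -/
theorem result : ∃ (X : Type) (_ : MetricSpace X), CompactSpace X ∧ ConnectedSpace X ∧
    Nontrivial X ∧ (∀ x y : X, ∃ h : X ≃ₜ X, h x = y) ∧ Indecomposable X ∧ DimLE X 2 ∧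
    ¬ DimLE X 1 := by
  obtain ⟨X, m, h1, h2, h3, h4, h5, h6, h7⟩ := Lib.MP_11d477_gt.Ind.main
  exact ⟨X, m, h1, h2, h3, h4, fun K L a b c _ e => h5 K L a.isClosed b.isPreconnected
    c.isClosed e, h6, h7⟩

end Pool.Agent.Results.MP_11d477_gt.IndecompTwoDim
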