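import Pool.Agent.Lib.MP_11d477_gt.Shape

set_option autoImplicit false

namespace Pool.Agent.Results.MP_11d477_gt.TwoDimExample

/-- Covering dimension at most `n`: each finite open cover has an open shrinking of order at most
`n + 1`. -/
def DimLE (X : Type) [TopologicalSpace X] (n : ℕ) : Prop :=
  ∀ (k : ℕ) (U : Fin k → Set X), (∀ i, IsOpen (U i)) → (⋃ i, U i) = Set.univ →
    ∃ V : Fin k → Set X, (∀ i, IsOpen (V i)) ∧ (∀ i, V i ⊆ U i) ∧ (⋃ i, V i) = Set.univ ∧
      ∀ x : X, Set.ncard {i : Fin k | x ∈ V i} ≤ n + 1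

/-- Trivial shape: for some embedding in the Hilbert cube, each open neighbourhood of the image
contains an open neighbourhood of the image that contracts inside it. -/
def TrivialShape (X : Type) [TopologicalSpace X] : Prop :=
  ∃ e : X → (ℕ → unitInterval), Topology.IsEmbedding e ∧
    ∀ U : Set (ℕ → unitInterval), IsOpen U → Set.range e ⊆ U →
      ∃ V : Set (ℕ → unitInterval), IsOpen V ∧ Set.range e ⊆ V ∧
        ∃ h : V ⊆ U, (ContinuousMap.inclusion h).Nullhomotopic

/-- There is a homogeneous nondegenerate metric continuum of trivial shape and of covering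
dimension exactly two. -/
theorem result : ∃ (X : Type) (_ : MetricSpace X), CompactSpace X ∧ ConnectedSpace X ∧
    Nontrivial X ∧ (∀ x y : X, ∃ h : X ≃ₜ X, h x = y) ∧ TrivialShape X ∧ DimLE X 2 ∧
    ¬ DimLE X 1 :=
  ⟨Lib.MP_11d477_gt.theGen.P × Lib.MP_11d477_gt.theGen.P,
    TopologicalSpace.metrizableSpaceMetric _, inferInstance, inferInstance, inferInstance,
    Lib.MP_11d477_gt.theGen.sq_homog, Lib.MP_11d477_gt.theGen.sq_shape,
    Lib.MP_11d477_gt.theGen.sq_dim_le, Lib.MP_11d477_gt.theGen.sq_not_dim_le⟩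

end Pool.Agent.Results.MP_11d477_gt.TwoDimExample
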